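import Pool.Agent.Lib_helper40.MC.T8b.Q
import Pool.Agent.Lib_helper40.MC.T8b.T

/-!
# N = 8, second special: all checks
-/

set_option autoImplicit false
set_option maxRecDepth 100000

namespace Pool.Agent.MC8b

open Pool.Agent.KC72 Pool.Agent.MC

theorem c8b_0 : NumX c8b c8b_t c8b_ll.length := by decide +kernel

theorem c8b_om : xm c8b.kb c8b.ko (c8b.m * c8b.N) c8b.Om = true := by decide +kernel

theorem c8b_b : cB c8b = true := by decide +kernel

theorem c8b_r0 : blk (cR c8b) c8b.rels 60 0 = true := by decide +kernel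

theorem c8b_r1 : blk (cR c8b) c8b.rels 60 1 = true := by decide +kernel

theorem c8b_r' : ∀ k < 2, blk (cR c8b) c8b.rels 60 k = true
  | 0, _ => c8b_r0
  | 1, _ => c8b_r1
  | k + 2, h => absurd h (by omega)

theorem c8b_g : allI (fun c g => cG c8b.DG c8b_t.B c8b_t.MA c8b_t.P2 c8b_t.MB c g) c8b.G 0 = true := by decide +kernel

theorem c8b_g' : c8b.toCert.chk3' = true := by decide +kernel

theorem c8b_k1 : (c8b.cls.take c8b.m).map (prF c8b_t.p c8b.n c8b.r) = c8b_t.PR := by decide +kernel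

theorem c8b_k2 : (c8b.cls.take c8b.m).map (pkw (Int.ofNat c8b_t.Z) (Int.ofNat (Nat.pow c8b_t.Z c8b.n)) c8b.r) = c8b_t.PM := by decide +kernel

theorem c8b_k3 : c8b_t.P2.map (fun x => pmb (Int.ofNat c8b_t.B) x.1 x.2 (c8b.cls.take c8b.m)) = c8b_t.MB := by decide +kernel

theorem c8b_e : c8b.cls.all (fun e => bdE c8b_t.MA c8b.n e.1.2 && bdE c8b_t.MA c8b.n e.2.2) = true := by decide +kernel

theorem c8b_xq : c8b_t.XQ.all (fun X => X.all (xm c8b_t.a c8b_t.d c8b_t.S)) = true := by decide +kernel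

theorem c8b_xt : c8b_t.XT.all (fun X => X.all (xm c8b_t.a' c8b_t.d' c8b_t.K)) = true := by decide +kernel

theorem c8b_d0_0 : blk (cD c8b c8b_v0) c8b.Q 40 0 = true := by decide +kernel

theorem c8b_d0_1 : blk (cD c8b c8b_v0) c8b.Q 40 1 = true := by decide +kernel

theorem c8b_d0_' : ∀ k < 2, blk (cD c8b c8b_v0) c8b.Q 40 k = true
  | 0, _ => c8b_d0_0
  | 1, _ => c8b_d0_1
  | k + 2, h => absurd h (by omega)

theorem c8b_x : allI (fun s L => cL c8b c8b_t (c8b_vl.getD s []) s L) c8b_ll 0 = true := by decide +kernel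

/-- all checks -/
theorem c8b_ok : ROkX c8b c8b_ll :=
  rOkX_of (A := c8b_t) (VL := c8b_vl) (l4 := 60) (n4 := 2) (lQ := 40) (nQ := 2) (lT := 40) (nT := 3) rfl c8b_0 c8b_om c8b_b
    (by decide) (by decide +kernel) c8b_r' c8b_g c8b_g' ⟨c8b_k1, c8b_k2, c8b_k3⟩ c8b_e c8b_xq c8b_xt (by decide) (by decide +kernel) c8b_q'
    (by decide) (by decide +kernel) c8b_t' c8b_x
    (List.forall_mem_cons.2 ⟨c8b_d0_', (List.forall_mem_nil _)⟩)

end Pool.Agent.MC8b
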