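import Pool.Agent.Lib_helper40.MC.P2
import Pool.Agent.Lib_helper40.MC.T8b.Ok
import Pool.Agent.Lib_helper54.FAM.C8b

/-!
# The classes of the certificate `c8b` are those of the list `c8b_cls`
-/

set_option autoImplicit false
set_option maxRecDepth 100000

namespace Pool.Agent.MC8b

open Pool.Agent.MC

/-- positions -/
def ia : List ℕ := [10, 13, 12, 1, 3, 8, 6, 5, 9, 52, 23, 70, 27, 22, 53, 38, 41, 26, 35, 92, 11, 89, 80, 88, 0,
  87, 2, 86, 81, 4, 7, 42, 79, 60, 21, 78, 68, 37, 20, 62, 43, 69, 104, 48, 54, 28, 45, 61, 55,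
  75, 105, 25, 15, 50, 34, 32, 18, 64, 33, 24, 103, 40, 39, 95, 72, 31, 85, 29, 102, 63, 46,
  91, 76, 90, 67, 57, 56, 58, 74, 84, 83, 82, 97, 14, 47, 17, 44, 19, 51, 16, 77, 49, 30, 36,
  59, 66, 73, 101, 96, 94, 65, 71, 99, 93, 100, 98]

/-- positions -/
def ib : List ℕ := [24, 3, 26, 4, 29, 7, 6, 30, 5, 8, 0, 20, 2, 1, 83, 52, 89, 85, 56, 87, 38, 34, 13, 10, 59,
  51, 17, 12, 45, 67, 92, 65, 55, 58, 54, 18, 93, 37, 15, 62, 61, 16, 31, 40, 86, 46, 70, 84,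
  43, 91, 53, 88, 9, 14, 44, 48, 76, 75, 77, 94, 33, 47, 39, 69, 57, 100, 95, 74, 36, 41, 11,
  101, 64, 96, 78, 49, 72, 90, 35, 32, 22, 28, 81, 80, 79, 66, 27, 25, 23, 21, 73, 71, 19, 103,
  99, 63, 98, 82, 105, 102, 104, 97, 68, 60, 42, 50]

/-- **the same classes** -/
theorem same : sameC c8b.cls N8C.c8b_cls = true :=
  sameC_of_pos (a := ia) (b := ib) (by decide +kernel) (by decide +kernel)

end Pool.Agent.MC8b
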